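import Pool.Agent.Lib.MP_5591bc_ag.K.Set
import Pool.Agent.Lib.MP_5591bc_ag.J.Loc

/-! No full line: the whole cell satisfies one of the conditions. -/

namespace Pool.Agent.Lib.MP_5591bc_ag.K

open Filter Topology Metric Set M J

theorem baire_an {E X : Type*} [NormedAddCommGroup E] [NormedSpace ℝ E] [CompleteSpace E]
    {F : Set (Set X)} (hc : F.Countable) {f : X → E → ℂ} {r : ℝ} (r0 : 0 < r)
    (an : ∀ R ∈ F, ∀ ρ ∈ R, AnalyticOnNhd ℝ (f ρ) (ball 0 r))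
    (h : ∀ v : E, ∃ R ∈ F, ∀ ρ ∈ R, ∀ᶠ u in 𝓝 (0 : ℝ), f ρ (u • v) = 0) :
    ∃ R ∈ F, ∀ ρ ∈ R, ∀ p ∈ ball (0 : E) r, f ρ p = 0 := by
  have hd := dense_biUnion_interior_of_closed
    (f := fun R => {p | p ∈ ball (0 : E) r → ∀ ρ ∈ R, f ρ p = 0}) (fun R hR => by
      refine isOpen_compl_iff.1 (isOpen_iff_mem_nhds.2 fun p hp => ?_)
      simp only [mem_compl_iff, mem_ofPred_eq, Classical.not_imp, not_forall] at hp
      obtain ⟨h1, ρ, h2, h3⟩ := hp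
      filter_upwards [isOpen_ball.mem_nhds h1, (an R hR ρ h2 p h1).continuousAt.eventually_ne h3]
        with q q1 q2 k
      exact q2 (k q1 ρ h2)) hc (eq_univ_of_forall fun p => by
      obtain ⟨R, hR, k⟩ := h p
      refine mem_biUnion hR fun hp ρ hρ => ?_
      have a : AnalyticOnNhd ℝ (fun u : ℝ => f ρ (u • p)) (Icc 0 1) := fun u hu =>
        AnalyticAt.comp (g := f ρ) (an R hR ρ hρ _ ((convex_ball 0 r).smul_mem_of_zero_mem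
          (mem_ball_self r0) hp hu)) (analyticAt_id.fun_smul analyticAt_const)
      have := a.eqOn_zero_of_preconnected_of_eventuallyEq_zero isPreconnected_Icc
        (left_mem_Icc.2 zero_le_one) (k ρ hρ) (right_mem_Icc.2 zero_le_one)
      simpa using this)
  obtain ⟨p, hp, p1⟩ := hd.exists_mem_open isOpen_ball ⟨0, mem_ball_self r0⟩
  obtain ⟨R, hR, k⟩ := mem_iUnion₂.1 hp
  refine ⟨R, hR, fun ρ hρ => (an R hR ρ hρ).eqOn_zero_of_preconnected_of_eventuallyEq_zero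
    (convex_ball _ _).isPreconnected p1 ?_⟩
  filter_upwards [mem_interior_iff_mem_nhds.1 k, isOpen_ball.mem_nhds p1] with q q1 q2
  exact q1 q2 ρ hρ

theorem cel_lone {τ σ ν K : Type} [Fintype τ] [Fintype σ] [Fintype ν] [DecidableEq ν] [Field K]
    [Algebra K ℂ] {Λ : ℕ} {G : σ → Polynomial (ZP τ)} {g : Polynomial (ZP τ)}
    {T' : MvPolynomial σ ℂ} {Ψ : (τ → ℂ) → τ → ℂ} {y : (τ → ℂ) × (τ → ℂ) → σ → ℂ} {a b : τ → ℂ}
    (h : Cel Λ G g T' Ψ y) (hG : ∀ l, 0 < (G l).natDegree) (ha : ‖a‖ ≤ 1) (hb : ‖b‖ ≤ 1)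
    {T : MvPolynomial σ K} {U : Set (σ → ℂ)} {S : Set ((σ → ℂ) × Matrix ν ν ℂ)} {P Q : (σ → ℂ) → Matrix ν ν ℂ}
    {C1 C0 : Matrix ν ν ℂ} {Y : (τ → ℂ) × (τ → ℂ) → Matrix ν ν ℂ}
    (hT : ∀ p ∈ ball (0 : (τ → ℂ) × (τ → ℂ)) 40, MvPolynomial.aeval (y p) T ≠ 0)
    (eY : ∀ᶠ p in 𝓝 (a, (0 : τ → ℂ)), Y p = Q (y p))
    (cY : ∀ p ∈ ball (0 : (τ → ℂ) × (τ → ℂ)) 36, ∃ V W, ContM U P V W ∧ y p ∈ V ∧
      ∀ᶠ p' in 𝓝 p, Y p' = W (y p'))
    (hL : Lone T U P C1 C0 S Q (y (a, 0)))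
    (arc : ∀ v : τ → ℂ, Arc (y (a, 0)) fun u => y (sc Λ Ψ a (Ψ a + u • v)))
    (nf : ∀ v : τ → ℂ, ¬ FullA Q C1 C0 (y (a, 0)) fun u => y (sc Λ Ψ a (Ψ a + u • v)))
    (hS : (y (b, 0), Y (b, 0) * C1) ∈ S) : y (b, 0) = y (a, 0) := by
  obtain ⟨F, hc, hA, hB, hC⟩ := hL
  have sub : ball (0 : (τ → ℂ) × (τ → ℂ)) 36 ⊆ ball 0 40 := ball_subset_ball (by norm_num)
  have an : ∀ R ∈ F, ∀ ρ ∈ R, AnalyticOnNhd ℝ (fun p => ρ (Y p)) (ball 0 36) :=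
    fun R hR ρ hρ p hp => by
      obtain ⟨V, W, k, m, e⟩ := cY p hp
      exact ((hA R hR ρ hρ V W k _ m (hT p (sub hp))).comp
        (h.ay p (sub hp)).restrictScalars).congr (e.mono fun q hq => congrArg ρ hq.symm)
  have ma : ∀ q ∈ ball (0 : τ → ℂ) 36, (a, q) ∈ ball (0 : (τ → ℂ) × (τ → ℂ)) 36 := fun q hq =>
    mem_ball_zero_iff.2 (max_lt (ha.trans_lt (by norm_num)) (mem_ball_zero_iff.1 hq))
  obtain ⟨R, hR, hz⟩ := baire_an hc (f := fun ρ q => ρ (Y (a, q))) (r := 36) (by norm_num)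
    (fun R hR ρ hρ q hq => AnalyticAt.comp (g := fun p => ρ (Y p)) (an R hR ρ hρ _ (ma q hq))
      (analyticAt_const.prod analyticAt_id)) fun v => by
      obtain ⟨R, hR, k⟩ := (hB _ (arc (((2 : ℂ) ^ Λ)⁻¹ • v))).resolve_left (nf _)
      refine ⟨R, hR, fun ρ hρ => ?_⟩
      have t1 : Tendsto (fun u : ℝ => (u : ℂ)) (𝓝 0) (𝓝 0) :=
        Complex.continuous_ofReal.tendsto' _ _ Complex.ofReal_zero
      have t2 : Tendsto (fun u : ℝ => (a, u • v)) (𝓝 0) (𝓝 (a, (0 : τ → ℂ))) :=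
        Continuous.tendsto' (by fun_prop) _ _ (by simp)
      filter_upwards [t1.eventually (k ρ hρ), t2.eventually eY] with u u1 u2
      have e : sc Λ Ψ a (Ψ a + (u : ℂ) • ((2 : ℂ) ^ Λ)⁻¹ • v) = (a, u • v) := by
        rw [sc, add_sub_cancel_left, smul_comm, smul_inv_smul₀ (pow_ne_zero Λ two_ne_zero),
          Complex.coe_smul]
      rwa [e, ← u2] at u1
  have z : ∀ ρ ∈ R, ∀ p ∈ ball (0 : (τ → ℂ) × (τ → ℂ)) 36, ρ (Y p) = 0 := fun ρ hρ => by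
    refine (an R hR ρ hρ).eqOn_zero_of_preconnected_of_eventuallyEq_zero
      (convex_ball _ _).isPreconnected (loc_mem ha (by norm_num)) ?_
    filter_upwards [h.loc hG ha, eY, (h.loc_t2 ha).eventually eY, (h.loc_t2 ha).eventually
      (isOpen_ball.eventually_mem (loc_mem ha (by norm_num : (1 : ℝ) < 36)))] with p b1 b2 b3 b4
    rw [b2, b1, ← b3]
    exact hz ρ hρ _ (mem_ball_zero_iff.2 ((norm_snd_le _).trans_lt (mem_ball_zero_iff.1 b4)))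
  obtain ⟨ℓ, hl⟩ : ∃ ℓ : ℝ → (τ → ℂ) × (τ → ℂ), ℓ = fun u => (a, 0) + u • ((b, 0) - (a, 0)) :=
    ⟨_, rfl⟩
  have cl : Continuous ℓ := by rw [hl]; fun_prop
  have l0 : ℓ 0 = (a, 0) := by simp [hl]
  have l1 : ℓ 1 = (b, 0) := by simp [hl]
  have ml : ∀ u ∈ Icc (0 : ℝ) 1, ℓ u ∈ ball (0 : (τ → ℂ) × (τ → ℂ)) 36 := fun u hu =>
    hl ▸ (convex_ball 0 36).add_smul_sub_mem (loc_mem ha (by norm_num)) (loc_mem hb (by norm_num)) hu
  have := hC R hR (fun u => y (ℓ u)) (fun u => Y (ℓ u)) ⟨fun u hu =>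
    ((h.ay _ (sub (ml u hu))).continuousAt.comp cl.continuousAt).continuousWithinAt, fun u hu => by
      obtain ⟨V, W, k, m, e⟩ := cY _ (ml u hu)
      exact ⟨hT _ (sub (ml u hu)), V, W, k, m,
        (cl.continuousAt.tendsto.eventually e).filter_mono nhdsWithin_le_nhds⟩⟩
    (by rw [l0]) (by rw [l0, eY.self_of_nhds]) (fun u hu ρ hρ => z ρ hρ _ (ml u hu)) (by rwa [l1])
  rwa [l1] at this

end Pool.Agent.Lib.MP_5591bc_ag.K
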