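import Pool.Agent.Lib.MP_5591bc_ag.K.Defs
import Pool.Agent.Lib.MP_5591bc_ag.J.DefP

/-! One arc at a time. -/

namespace Pool.Agent.Lib.MP_5591bc_ag.K

open MvPolynomial Filter Topology Set M J

/-- an algebraic arc through `x` -/
def Arc {σ : Type*} [Fintype σ] (x : σ → ℂ) (y : ℂ → σ → ℂ) : Prop :=
  AnalyticAt ℂ y 0 ∧ y 0 = x ∧
    ∀ l, ∃ q : MvPolynomial (Fin 2) ℂ, q ≠ 0 ∧ ∀ᶠ u in 𝓝 (0 : ℂ), eval ![u, y u l] q = 0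

/-- the conclusion of `FullP` for one arc -/
def FullA {σ ν : Type*} [Fintype σ] [Fintype ν] [DecidableEq ν] (P : (σ → ℂ) → Matrix ν ν ℂ)
    (C1 C0 : Matrix ν ν ℂ) (x : σ → ℂ) (y : ℂ → σ → ℂ) : Prop :=
  ∀ H : MvPolynomial (Option σ ⊕ Option (ν × ν)) ℂ,
    (∀ᶠ u in 𝓝 (0 : ℂ), eval (Sum.elim (fun o => o.elim u (y u)) (dj C0 (P (y u)))) H = 0) →
    ∃ H' : MvPolynomial (σ ⊕ (ν × ν) ⊕ (ν × ν)) ℂ,
      (∀ᶠ t in 𝓝 x, eval (Sum.elim t (Sum.elim (fun a => (P t * C1) a.1 a.2)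
        fun a => P t a.1 a.2)) H' = 0) ∧
      ∀ Z : Matrix ν ν ℂ, eval (Sum.elim x (Sum.elim (fun a => (P x * C1) a.1 a.2)
        fun a => Z a.1 a.2)) H' = eval (Sum.elim (fun o => o.elim 0 x) (dj C0 Z)) H

/-- countably many real analytic conditions; an arc through `x` is full or satisfies one of them;
a path from `x` that satisfies one of them does not end at another point of `S` -/
def Lone {K σ ν : Type*} [Field K] [Algebra K ℂ] [Fintype σ] [Fintype ν] [DecidableEq ν]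
    (T : MvPolynomial σ K) (U : Set (σ → ℂ)) (P : (σ → ℂ) → Matrix ν ν ℂ) (C1 C0 : Matrix ν ν ℂ)
    (S : Set ((σ → ℂ) × Matrix ν ν ℂ)) (Q : (σ → ℂ) → Matrix ν ν ℂ) (x : σ → ℂ) : Prop :=
  ∃ F : Set (Set (Matrix ν ν ℂ → ℂ)), F.Countable ∧
    (∀ R ∈ F, ∀ ρ ∈ R, ∀ V W, ContM U P V W → ∀ t ∈ V, aeval t T ≠ 0 →
      AnalyticAt ℝ (fun s => ρ (W s)) t) ∧
    (∀ y, Arc x y → FullA Q C1 C0 x y ∨ ∃ R ∈ F, ∀ ρ ∈ R, ∀ᶠ u in 𝓝 (0 : ℂ), ρ (Q (y u)) = 0) ∧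
    ∀ R ∈ F, ∀ c Y, Pth T U P c Y → c 0 = x → Y 0 = Q x →
      (∀ τ ∈ Icc (0 : ℝ) 1, ∀ ρ ∈ R, ρ (Y τ) = 0) → (c 1, Y 1 * C1) ∈ S → c 1 = x

end Pool.Agent.Lib.MP_5591bc_ag.K
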