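import Pool.Agent.Lib.MP_5591bc_ag.K.Defs
import Pool.Agent.Lib.MP_5591bc_ag.B.Defs

/-! Points joined inside a weakly special locus. -/

namespace Pool.Agent.Lib.MP_5591bc_ag.K

open Matrix MvPolynomial Set A B

/-- Starting from the branch `Q` at `s`, a path leads to the point `s'` of the variety parametrised
by `(t, P * C1)`, along which the Hodge structure is
constant modulo a proper normal `ℚ`-subgroup `N` of the group `Mf` at `s`. -/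
def WS {K σ μ ν : Type*} [Field K] [Algebra K ℂ] [Fintype σ] [Fintype μ] [DecidableEq μ]
    [Fintype ν] (T : MvPolynomial σ K) (U : Set (σ → ℂ)) (P : (σ → ℂ) → Matrix ν ν ℂ)
    (C1 : Matrix ν ν ℂ) (c : μ → ν) (j : ℕ) (w : μ → ℕ) (Q : (σ → ℂ) → Matrix ν ν ℂ)
    (s : σ → ℂ) (s' : (σ → ℂ) × Matrix ν ν ℂ) : Prop :=
  ∃ N, QGrp N ∧ N ⊂ Mf Q C1 c s ∧ (∀ g ∈ Mf Q C1 c s, ∀ a ∈ N, g⁻¹ * a * g ∈ N) ∧
    ∃ γ Y, Pth T U P γ Y ∧ γ 0 = s ∧ Y 0 = Q s ∧ (γ 1, Y 1 * C1) = s' ∧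
      ∀ τ ∈ Icc (0 : ℝ) 1, ∀ z h h', z ≠ 0 → IsH j w ((Y 0).submatrix c c) z h →
        IsH j w ((Y τ).submatrix c c) z h' → h⁻¹ * h' ∈ N

end Pool.Agent.Lib.MP_5591bc_ag.K
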