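import Pool.Agent.Lib.MP_5591bc_ag.K.Set
import Pool.Agent.Lib.MP_5591bc_ag.J.Full

/-! The ring of the fibre at the centre, from one full line. -/

namespace Pool.Agent.Lib.MP_5591bc_ag.K

open Matrix Filter Topology Metric Finset G R W M N J

noncomputable section

theorem line_arc {τ σ : Type} [Fintype τ] [Fintype σ] {x : σ → ℂ} {η : (τ → ℂ) → σ → ℂ}
    {t₀ : τ → ℂ} (hη : AnalyticAt ℂ η t₀) (h0 : η t₀ = x) {G : σ → Polynomial (J.ZP τ)}
    (hG : ∀ l, QM (G l)) (hr : ∀ l, ∀ᶠ t in 𝓝 t₀, evP t (η t l) (G l) = 0) (v : τ → ℂ) :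
    Arc x fun u => η (t₀ + u • v) := by
  have a : AnalyticAt ℂ (fun u : ℂ => t₀ + u • v) 0 := by fun_prop
  have a0 : t₀ + (0 : ℂ) • v = t₀ := by simp
  have a1 : Tendsto (fun u : ℂ => t₀ + u • v) (𝓝 0) (𝓝 t₀) := by
    simpa only [a0] using a.continuousAt.tendsto
  have al : ∀ l, ∃ q : MvPolynomial (Fin 2) ℂ, q ≠ 0 ∧
      ∀ᶠ u in 𝓝 (0 : ℂ), MvPolynomial.eval ![u, η (t₀ + u • v) l] q = 0 := fun l => by
    have e2 : ∀ u z : ℂ, MvPolynomial.eval ![u, z] (evP (fun j => MvPolynomial.C (t₀ j) +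
        MvPolynomial.X 0 * MvPolynomial.C (v j)) (MvPolynomial.X 1) (G l)) =
        evP (t₀ + u • v) z (G l) := fun u z => by
      rw [map_evP]
      congr 2
      · funext j
        simp
      · simp
    refine ⟨_, fun e => ?_, (a1.eventually (hr l)).mono fun u hu => (e2 _ _).trans hu⟩
    obtain ⟨k, k0, k1⟩ := hG l
    have e3 : (G l).map (evZ t₀) = 0 := Polynomial.funext fun z => by
      rw [← evP_eq, ← a0, ← e2, e, map_zero, Polynomial.eval_zero]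
    have := congrArg (Polynomial.coeff · (G l).natDegree) e3
    simp only [Polynomial.coeff_map, Polynomial.coeff_natDegree, k1, evZ] at this
    exact k0 (by simpa using this)
  exact ⟨AnalyticAt.fun_comp (by rwa [a0]) a, by simp only [a0, h0], al⟩

theorem full_fibA {τ σ ν ι : Type} [Fintype τ] [Fintype σ] [Fintype ν] [DecidableEq ν] [Fintype ι]
    {P : (σ → ℂ) → Matrix ν ν ℂ} {C1 C0 : Matrix ν ν ℂ} {x : σ → ℂ} (hd : (P x).det ≠ 0)
    {η : (τ → ℂ) → σ → ℂ} {t₀ v : τ → ℂ} (h : FullA P C1 C0 x fun u => η (t₀ + u • v))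
    (c : ι → MvPolynomial τ ℂ)
    (e : ι → σ → ℕ) (w : ι → MvPolynomial (Option (ν × ν)) ℂ)
    (hz : ∀ᶠ t in 𝓝 t₀, ∑ i, MvPolynomial.eval t (c i) * (∏ l, η t l ^ e i l) *
      MvPolynomial.eval (dj C0 (P (η t))) (w i) = 0) {Q : MvPolynomial (ν × ν) ℂ}
    (hQ : ∀ Z : Matrix ν ν ℂ, MvPolynomial.eval (fun a => Z a.1 a.2) Q =
      ∑ i, (MvPolynomial.eval t₀ (c i) * ∏ l, x l ^ e i l) *
        MvPolynomial.eval (dj C0 (Z * P x)) (w i)) : InFibR P C1 x Q := by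
  have a : AnalyticAt ℂ (fun u : ℂ => t₀ + u • v) 0 := by fun_prop
  have a0 : t₀ + (0 : ℂ) • v = t₀ := by simp
  have a1 : Tendsto (fun u : ℂ => t₀ + u • v) (𝓝 0) (𝓝 t₀) := by
    simpa only [a0] using a.continuousAt.tendsto
  obtain ⟨H, hH⟩ : ∃ H : MvPolynomial (Option σ ⊕ Option (ν × ν)) ℂ, ∀ u y Z,
      MvPolynomial.eval (Sum.elim (fun o => o.elim u y) Z) H = ∑ i,
        MvPolynomial.eval (t₀ + u • v) (c i) * (∏ l, y l ^ e i l) * MvPolynomial.eval Z (w i) := by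
    refine ⟨∑ i, MvPolynomial.aeval (fun j => MvPolynomial.C (t₀ j) + MvPolynomial.X (.inl none) *
      MvPolynomial.C (v j)) (c i) * (∏ l, MvPolynomial.X (.inl (some l)) ^ e i l) *
      MvPolynomial.rename Sum.inr (w i), fun u y Z => ?_⟩
    simp only [map_sum, map_mul, map_prod, map_pow, MvPolynomial.eval_X, MvPolynomial.eval_rename]
    refine sum_congr rfl fun i _ => congrArg₂ _ (congrArg₂ _ ?_ rfl) rfl
    rw [MvPolynomial.map_aeval]
    refine congrArg₂ (MvPolynomial.eval₂Hom · · (c i)) (RingHom.ext fun c => by simp)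
      (funext fun j => by simp)
  obtain ⟨H', h1, h2⟩ := h H ((a1.eventually hz).mono fun u hu => (hH _ _ _).trans hu)
  · have e1 : ∀ t Z (Y : Matrix ν ν ℂ), MvPolynomial.eval (Sum.elim t (Sum.elim Z fun a =>
        Y a.1 a.2)) (MvPolynomial.aeval (Sum.elim (fun l => MvPolynomial.X (.inl l)) (Sum.elim
          (fun a => MvPolynomial.X (.inr (.inl a))) fun a : ν × ν => ∑ k,
            MvPolynomial.X (.inr (.inr (a.1, k))) * MvPolynomial.C (P x k a.2))) H' :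
              MvPolynomial (σ ⊕ (ν × ν) ⊕ (ν × ν)) ℂ) =
        MvPolynomial.eval (Sum.elim t (Sum.elim Z fun a => (Y * P x) a.1 a.2)) H' := fun t Z Y => by
      rw [MvPolynomial.map_aeval]
      refine congrArg₂ (MvPolynomial.eval₂Hom · · H') (RingHom.ext fun c => by simp) (funext ?_)
      rintro (l | a | a) <;> simp [mul_apply]
    refine ⟨_, h1.mono fun t ht => (e1 t _ _).trans ?_, fun Z => (e1 x _ (of fun i j => Z (i, j))).trans
      ((h2 _).trans ((hH _ _ _).trans ?_))⟩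
    · rwa [nonsing_inv_mul_cancel_right _ _ hd.isUnit]
    · rw [a0, ← hQ]
      rfl

theorem ringK {σ ν K : Type} [Fintype σ] [DecidableEq σ] [Field K] [Algebra K ℂ]
    [Fintype ν] [DecidableEq ν] {T : MvPolynomial σ K} {B : σ → Matrix ν ν (MvPolynomial σ K)}
    {V : Set (σ → ℂ)} {P : (σ → ℂ) → Matrix ν ν ℂ} (ho : IsOpen V) (hc : IsPreconnected V)
    (hP : FundM T B V P) {C1 C0 : Matrix ν ν ℂ} (hC : ConnRM V P fun t => P t * C1)
    (hj : Proj T V P C1 C0) {s : σ → ℂ} (hs : s ∈ V) (hT : MvPolynomial.aeval s T ≠ 0) :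
    ∃ (R : Type) (_ : CommRing R) (_ : IsDomain R) (_ : Algebra ℂ R)
      (π : MvPolynomial (ν × ν) ℂ →ₐ[ℂ] R) (ev : R →ₐ[ℂ] ℂ),
      (∀ (δ : ℕ) (u : Mo δ ν → ℂ) (μ : Mo δ ν), ev (π (pX δ u μ)) = u μ) ∧
      ∀ (δ : ℕ) (E : Type) [Field E] [Algebra E ℂ] [Algebra K E] [IsScalarTower K E ℂ]
        (U : Set (σ → ℂ)) (Q : (σ → ℂ) → Matrix ν ν ℂ) (y : σ → E) (z : Matrix ν ν E),
        IsOpen U → IsPreconnected U → FundM T B U Q → ContM V P U Q → pc y ∈ U →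
        MvPolynomial.aeval (pc y) T ≠ 0 → z.map (algebraMap E ℂ) = Q (pc y) * C1 →
        ¬ GoodRM U Q C1 C0 δ y z → ∃ F : Mo δ ν → E, Sy F ∧
          ∀ u, u = (fun μ => algebraMap E ℂ (F μ)) ᵥ* Adj δ (P s * (Q (pc y))⁻¹) →
            ∑ j, mono δ (P s * C0) j • π (pX δ u j) ≠ 0 ∧
            ∑ j, mono δ (P s * C0) j * u j = 0 ∧
            ∀ (τ ι : Type) [Fintype τ] [Fintype ι] (η : (τ → ℂ) → σ → ℂ) (t₀ v : τ → ℂ)
              (a : ℕ) (c : ι → MvPolynomial τ ℂ) (e : ι → σ → ℕ)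
              (α : ι → Fin a → Mo δ ν), (FullA P C1 C0 s fun u => η (t₀ + u • v)) →
              (∀ᶠ t in 𝓝 t₀, ∑ i, MvPolynomial.eval t (c i) * (∏ l, η t l ^ e i l) *
                ∏ k, ((fun μ => algebraMap E ℂ (F μ)) ᵥ*
                  Adj δ (P (η t) * (Q (pc y))⁻¹)) (α i k) = 0) →
              ∑ i, (MvPolynomial.eval t₀ (c i) * ∏ l, s l ^ e i l) •
                ∏ k, π (pX δ u (α i k)) = 0 := by
  obtain ⟨R, _, _, _, π, ev, hπ, hev, hlift⟩ := fib_ringJ ho hc hP hC hs hT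
  refine ⟨R, inferInstance, inferInstance, inferInstance, π, ev, hev, ?_⟩
  intro δ E _ _ _ _ U Q y z oU cU hQ ct hy Ty hz hbad
  have dQ := (hQ _ hy).1
  have ny : MvPolynomial.eval y (TM E T) ≠ 0 := fun e =>
    Ty (by rw [← aeval_TM (K := E), aeval_pc, e, map_zero])
  obtain ⟨F0, f1, f2⟩ : ∃ F : Mo δ ν → E, (fun μ => algebraMap E ℂ (F μ)) ⬝ᵥ
      mono δ (Q (pc y) * C0) = 0 ∧ ¬ LGN Q C1 C0 δ y z F := by
    by_contra hn
    push Not at hn
    exact hbad (goodRM_of oU cU (fun t ht i j => ((hQ t ht).2 i j).1) hy hn)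
  obtain ⟨F1, sy, f3, f4⟩ := exists_syN f2
  obtain ⟨p, p1, p2⟩ := proj_bad (δ := δ) oU (proj_cont ho hj ct) hy Ty hz
  have e1 := Rp_vec (algebraMap E ℂ) F1 1 p
  rw [map_one] at e1
  obtain ⟨w, hw⟩ := proj_pol (F := fun μ => algebraMap E ℂ (F1 μ)) dQ p1
  rw [← e1] at hw
  have f5 : (fun μ => algebraMap E ℂ ((F1 ᵥ* Rp δ 1 p) μ)) ⬝ᵥ mono δ (Q (pc y) * C0) = 0 := by
    rw [e1, ← dotProduct_mulVec, Rp_mono (Z' := Q (pc y) * C0) (by
      rw [← Matrix.mul_assoc, p1, Matrix.mul_assoc, hj.1, one_smul]), one_pow, one_smul, f4, f1]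
  refine ⟨F1 ᵥ* Rp δ 1 p, Rp_sy sy _ _, ?_⟩
  replace f3 := mt (p2 F1) f3
  generalize F1 ᵥ* Rp δ 1 p = F at hw f5 f3
  rintro u rfl
  refine ⟨fun e => ?_, ?_, fun τ ι _ _ η t₀ v a c e α h1 h6 => ?_⟩
  · refine f3 (descN ho (hP.tm E) hs (by rwa [aeval_TM]) oU (hQ.tm E) hy ny
      (link_cont ho hc (fun t ht i j => ((hP t ht).2 i j).1) ct hs hy) hz (hlift δ _ _ ?_))
    rw [← e, dotProduct, map_sum]
    refine sum_congr rfl fun j _ => ?_
    rw [map_mul, mul_comm, MvPolynomial.algHom_C, Algebra.smul_def]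
  · rw [← lam_dotN dQ f5 (P s), dotProduct]
    exact sum_congr rfl fun j _ => mul_comm _ _
  · rw [← hπ _ (full_fibA (hP s hs).1 h1 c e (fun i => ∏ k, w (α i k))
      (by simpa only [map_prod, hw] using h6)
      (Q := ∑ i, MvPolynomial.C (MvPolynomial.eval t₀ (c i) * ∏ l, s l ^ e i l) * ∏ k, pX δ
        ((fun μ => algebraMap E ℂ (F μ)) ᵥ* Adj δ (P s * (Q (pc y))⁻¹)) (α i k)) fun Z => ?_),
      map_sum]
    · refine sum_congr rfl fun i _ => ?_
      rw [map_mul, MvPolynomial.algHom_C, Algebra.smul_def, map_prod]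
    · rw [map_sum]
      refine sum_congr rfl fun i _ => ?_
      rw [map_mul, MvPolynomial.eval_C, map_prod, map_prod]
      refine congrArg _ (prod_congr rfl fun k _ => ?_)
      rw [hw, Matrix.mul_assoc, Adj_mul δ Z, ← vecMul_vecMul]
      refine (spc_pX (MvPolynomial.aeval fun a : ν × ν => Z a.1 a.2) δ _ _).trans ?_
      simp only [MvPolynomial.aeval_X]
      rfl

end

end Pool.Agent.Lib.MP_5591bc_ag.K
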