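import Pool.Agent.Lib.MP_5591bc_ag.B.HsA

/-! The action of a number is real analytic in any number of parameters. -/

namespace Pool.Agent.Lib.MP_5591bc_ag.K

open Matrix A B

noncomputable section

variable {E α β γ μ : Type*} [NormedAddCommGroup E] [NormedSpace ℝ E] {t : E}

/-- complex matrices with real analytic entries -/
def AnE (A : E → Matrix α β ℂ) (t : E) : Prop := ∀ i k, AnalyticAt ℝ (A · i k) t

theorem AnE.const (A : Matrix α β ℂ) : AnE (fun _ => A) t := fun _ _ => analyticAt_const

theorem AnE.mul [Fintype β] {A : E → Matrix α β ℂ} {B : E → Matrix β γ ℂ} (h : AnE A t)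
    (h' : AnE B t) : AnE (fun w => A w * B w) t := by
  intro i j
  simp only [Matrix.mul_apply]
  exact Finset.analyticAt_fun_sum _ fun k _ => (h i k).mul (h' k j)

theorem AnE.ct {A : E → Matrix α β ℂ} (h : AnE A t) : AnE (fun w => (A w)ᴴ) t :=
  fun i j => ((Complex.conjCLE : ℂ →L[ℝ] ℂ).analyticAt _).comp (h j i)

theorem AnE.aeval {A : E → Matrix α β ℂ} (h : AnE A t) {R : Type*} [CommRing R] [Algebra R ℂ]
    (p : MvPolynomial (α × β) R) :
    AnalyticAt ℝ (fun w => MvPolynomial.aeval (fun a : α × β => A w a.1 a.2) p) t := by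
  induction p using MvPolynomial.induction_on with
  | C a => simpa only [MvPolynomial.aeval_C] using analyticAt_const
  | add p q hp hq => simpa only [map_add] using hp.fun_add hq
  | mul_X p a hp => simpa only [map_mul, MvPolynomial.aeval_X] using hp.fun_mul (h _ _)

variable [Fintype μ] [DecidableEq μ]

theorem AnE.det {A : E → Matrix μ μ ℂ} (h : AnE A t) : AnalyticAt ℝ (fun w => (A w).det) t := by
  simp only [Matrix.det_apply']
  exact Finset.analyticAt_fun_sum _ fun s _ =>
    analyticAt_const.mul (Finset.analyticAt_fun_prod _ fun k _ => h _ _)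

theorem AnE.inv {A : E → Matrix μ μ ℂ} (h : AnE A t) (hd : (A t).det ≠ 0) :
    AnE (fun w => (A w)⁻¹) t := by
  intro i j
  simp only [Matrix.inv_def, Ring.inverse_eq_inv', Matrix.smul_apply, smul_eq_mul,
    Matrix.adjugate_apply]
  refine (h.det.inv hd).mul (AnE.det fun a b => ?_)
  simp only [Matrix.updateRow_apply]
  split_ifs
  · exact analyticAt_const
  · exact h a b

variable {J : Matrix μ μ ℝ} {j : ℕ} {w : μ → ℕ} {Y : E → Matrix μ μ ℂ}

theorem an_al (h : AnE Y t) (hs : HS J j w (Y t)) (p : ℕ) : AnE (fun s => al J w (Y s) p) t :=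
  ((((AnE.const _).mul h.ct).mul (.const _)).mul (AnE.inv (A := fun s => Gw J w (Y s) p)
    (fun i k => ((((((AnE.const _).mul h).mul (.const _)).mul h.ct).mul (.const _)) i k).add
      analyticAt_const) (hs_gw hs p))).mul ((AnE.const _).mul h)

theorem an_Dg (h : AnE Y t) (hs : HS J j w (Y t)) (c : ℕ → ℂ) :
    AnE (fun s => Dg J j w (Y s) c) t := by
  intro i k
  simp only [Dg, Matrix.sum_apply]
  exact Finset.analyticAt_fun_sum _ fun p _ => (analyticAt_const (v := c p)).mul
    ((an_al h hs p i k).sub (an_al h hs (p + 1) i k))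

theorem an_hH (h : AnE Y t) (hs : HS J j w (Y t)) (z : ℂ) :
    AnE (fun s => cx (hH J j w z (Y s))) t := fun i k =>
  (Complex.ofRealCLM.analyticAt _).comp ((Complex.reCLM.analyticAt _).comp (an_Dg h hs _ i k))

end

end Pool.Agent.Lib.MP_5591bc_ag.K
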