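import Pool.Agent.Lib.MP_5591bc_ag.A.DefM

/-! One rational group for all the lines through a point. -/

namespace Pool.Agent.Lib.MP_5591bc_ag.K

open Matrix Filter Topology Metric A

variable {X : Type*} [NormedAddCommGroup X] [NormedSpace ℝ X] {ι : Type*} {D : Set X}

/-- countably many families of analytic functions; on each line one family vanishes near `t₀` -/
theorem baire_lin [CompleteSpace X] {κ : Type*} [Countable κ] (ho : IsOpen D)
    (hc : IsPreconnected D) {f : κ → ι → X → ℂ} (hf : ∀ k i, AnalyticOnNhd ℝ (f k i) D) {t₀ : X}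
    (h0 : t₀ ∈ D) (h : ∀ v, ∃ k, ∀ i, ∀ᶠ u : ℝ in 𝓝 0, f k i (t₀ + u • v) = 0) :
    ∃ k, ∀ i, ∀ t ∈ D, f k i t = 0 := by
  obtain ⟨ε, e0, e1⟩ := Metric.isOpen_iff.1 ho t₀ h0
  have cov : ∀ t ∈ ball t₀ ε, ∃ k, ∀ i, f k i t = 0 := fun t ht => by
    obtain ⟨k, hk⟩ := h (t - t₀)
    refine ⟨k, fun i => ?_⟩
    have a : ∀ u : ℝ, AnalyticAt ℝ (fun u : ℝ => t₀ + u • (t - t₀)) u := fun u => by fun_prop
    have c : Convex ℝ {u : ℝ | t₀ + u • (t - t₀) ∈ ball t₀ ε} := by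
      have := (convex_ball t₀ ε).affine_preimage (AffineMap.lineMap (k := ℝ) t₀ t)
      have e : {u : ℝ | t₀ + u • (t - t₀) ∈ ball t₀ ε} =
          AffineMap.lineMap (k := ℝ) t₀ t ⁻¹' ball t₀ ε := by
        ext u
        simp [AffineMap.lineMap_apply, add_comm]
      rwa [e]
    have := AnalyticOnNhd.eqOn_zero_of_preconnected_of_eventuallyEq_zero
      (f := fun u : ℝ => f k i (t₀ + u • (t - t₀)))
      (fun u hu => (hf k i _ (e1 hu)).fun_comp (a u)) c.isPreconnected (z₀ := 0)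
      (show t₀ + (0 : ℝ) • (t - t₀) ∈ ball t₀ ε by simpa using e0) (hk i) (x := 1)
      (show t₀ + (1 : ℝ) • (t - t₀) ∈ ball t₀ ε by simpa using ht)
    simpa using this
  have e2 : closedBall t₀ (ε / 2) ⊆ ball t₀ ε := closedBall_subset_ball (by linarith)
  let F : Option κ → Set X := fun o => o.elim (ball t₀ (ε / 2))ᶜ
    fun k => ⋂ i, closedBall t₀ (ε / 2) ∩ f k i ⁻¹' {0}
  have hF : ∀ o, IsClosed (F o) := by
    rintro (_ | k)
    · exact isOpen_ball.isClosed_compl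
    · exact isClosed_iInter fun i => ContinuousOn.preimage_isClosed_of_isClosed
        ((hf k i).continuousOn.mono (e2.trans e1)) isClosed_closedBall isClosed_singleton
  have hU : ⋃ o, F o = Set.univ := Set.eq_univ_of_forall fun t => by
    by_cases ht : t ∈ ball t₀ (ε / 2)
    · obtain ⟨k, hk⟩ := cov t (e2 (ball_subset_closedBall ht))
      exact Set.mem_iUnion.2 ⟨some k, Set.mem_iInter.2 fun i => ⟨ball_subset_closedBall ht, hk i⟩⟩
    · exact Set.mem_iUnion.2 ⟨none, ht⟩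
  obtain ⟨t, t1, t2⟩ := (dense_iUnion_interior_of_closed hF hU).exists_mem_open isOpen_ball
    ⟨t₀, mem_ball_self (half_pos e0)⟩
  obtain ⟨_ | k, hk⟩ := Set.mem_iUnion.1 t1
  · exact absurd t2 (interior_subset hk)
  refine ⟨k, fun i => (hf k i).eqOn_zero_of_preconnected_of_eventuallyEq_zero hc
    (e1 (e2 (ball_subset_closedBall t2))) ?_⟩
  filter_upwards [mem_interior_iff_mem_nhds.1 hk] with w hw
  exact (Set.mem_iInter.1 hw i).2

variable {ν : Type*} [Fintype ν] [DecidableEq ν]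

omit [Fintype ν] [DecidableEq ν] in
theorem baire_pol {φ : X → Matrix ν ν ℂ} {t : X} (h : ∀ i j, AnalyticAt ℝ (φ · i j) t)
    (p : MvPolynomial (ν × ν) ℚ) :
    AnalyticAt ℝ (fun w => MvPolynomial.aeval (fun a : ν × ν => φ w a.1 a.2) p) t := by
  induction p using MvPolynomial.induction_on with
  | C a => simpa using analyticAt_const
  | add p q hp hq => simpa using hp.fun_add hq
  | mul_X p a hp => simpa using hp.fun_mul (h a.1 a.2)

/-- finitely many equations suffice -/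
theorem baire_fin {N : Set (Matrix ν ν ℂ)} (h : QGrp N) : ∃ s : Finset (MvPolynomial (ν × ν) ℚ),
    N = {g | g.det ≠ 0 ∧ ∀ p ∈ s, MvPolynomial.aeval (fun a : ν × ν => g a.1 a.2) p = 0} := by
  obtain ⟨⟨E, rfl⟩, -⟩ := h
  obtain ⟨s, hs⟩ := IsNoetherian.noetherian (Ideal.span E)
  refine ⟨s, Set.ext fun g => and_congr_right fun _ => ?_⟩
  have k : ∀ S : Set (MvPolynomial (ν × ν) ℚ),
      (∀ p ∈ S, MvPolynomial.aeval (fun a : ν × ν => g a.1 a.2) p = 0) ↔
        Ideal.span S ≤ RingHom.ker (MvPolynomial.aeval (R := ℚ) fun a : ν × ν => g a.1 a.2) :=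
    fun S => by
      rw [Ideal.span_le]
      rfl
  rw [k E, ← hs]
  exact (k s).symm

theorem baire_count : {N : Set (Matrix ν ν ℂ) | QGrp N}.Countable := by
  have : Countable (MvPolynomial (ν × ν) ℚ) :=
    (MvPolynomial.basisMonomials (ν × ν) ℚ).repr.injective.countable
  refine (Set.countable_range fun s : Finset (MvPolynomial (ν × ν) ℚ) =>
    {g : Matrix ν ν ℂ | g.det ≠ 0 ∧
      ∀ p ∈ s, MvPolynomial.aeval (fun a : ν × ν => g a.1 a.2) p = 0}).mono fun N hN => ?_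
  obtain ⟨s, hs⟩ := baire_fin hN
  exact ⟨s, hs.symm⟩

/-- membership in a rational group passes from a germ to a connected domain -/
theorem baire_ext (hc : IsPreconnected D) {N : Set (Matrix ν ν ℂ)} (hN : QGrp N)
    {φ : X → Matrix ν ν ℂ} (hφ : ∀ i j, AnalyticOnNhd ℝ (φ · i j) D)
    (hd : ∀ t ∈ D, (φ t).det ≠ 0) {t₀ : X} (h0 : t₀ ∈ D) (h : ∀ᶠ t in 𝓝 t₀, φ t ∈ N) :
    ∀ t ∈ D, φ t ∈ N := by
  obtain ⟨⟨E, rfl⟩, -⟩ := hN
  exact fun t ht => ⟨hd t ht, fun p hp =>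
    AnalyticOnNhd.eqOn_zero_of_preconnected_of_eventuallyEq_zero
      (fun w hw => baire_pol (fun i j => hφ i j w hw) p) hc h0 (h.mono fun w hw => hw.2 p hp) ht⟩

/-- one group for all the lines -/
theorem baire_grp [CompleteSpace X] (ho : IsOpen D) (hc : IsPreconnected D)
    {𝒩 : Set (Set (Matrix ν ν ℂ))} (h𝒩 : ∀ N ∈ 𝒩, QGrp N) {φ : ι → X → Matrix ν ν ℂ}
    (hφ : ∀ z i j, AnalyticOnNhd ℝ (φ z · i j) D) (hd : ∀ z, ∀ t ∈ D, (φ z t).det ≠ 0) {t₀ : X}
    (h0 : t₀ ∈ D) (h : ∀ v, ∃ N ∈ 𝒩, ∀ z, ∀ᶠ u : ℝ in 𝓝 0, φ z (t₀ + u • v) ∈ N) :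
    ∃ N ∈ 𝒩, ∀ z, ∀ t ∈ D, φ z t ∈ N := by
  have : Countable 𝒩 := (baire_count.mono h𝒩).to_subtype
  choose E hE using fun N : 𝒩 => (h𝒩 N.1 N.2).1
  classical
  obtain ⟨N, hN⟩ := baire_lin (κ := 𝒩) (ι := ι × MvPolynomial (ν × ν) ℚ) ho hc
    (f := fun N i t => if i.2 ∈ E N then
      MvPolynomial.aeval (fun a : ν × ν => φ i.1 t a.1 a.2) i.2 else 0)
    (fun N i t ht => by
      by_cases hi : i.2 ∈ E N
      · simpa only [if_pos hi] using baire_pol (fun a b => hφ i.1 a b t ht) i.2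
      · simpa only [if_neg hi] using analyticAt_const) h0 fun v => by
      obtain ⟨N, h1, h2⟩ := h v
      refine ⟨⟨N, h1⟩, fun i => (h2 i.1).mono fun u hu => ?_⟩
      have := hE ⟨N, h1⟩
      split_ifs with hi
      · exact ((Set.ext_iff.1 this _).1 hu).2 _ hi
      · rfl
  refine ⟨N, N.2, fun z t ht => (Set.ext_iff.1 (hE N) _).2 ⟨hd z t ht, fun p hp => ?_⟩⟩
  simpa only [if_pos hp] using hN (z, p) t ht

end Pool.Agent.Lib.MP_5591bc_ag.K
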