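import Pool.Agent.Lib.MP_5591bc_ag.K.Gap
import Pool.Agent.Lib.MP_5591bc_ag.K.Ball
import Pool.Agent.Lib.MP_5591bc_ag.J.MainA

/-! One cell. -/

namespace Pool.Agent.Lib.MP_5591bc_ag.K

open Matrix Filter Topology G R W M N E Z J Metric

noncomputable section

variable {σ K : Type} [Fintype σ] [DecidableEq σ] [Field K] [NumberField K]
  [Algebra K ℂ] {n : ℕ} {T : MvPolynomial σ K}
  {B : σ → Matrix (Fin n) (Fin n) (MvPolynomial σ K)}

omit [DecidableEq σ] in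
/-- the points of a cell with the same image lie over a hypersurface -/
theorem cel_hyp {τ : Type} [Fintype τ] {Λ : ℕ} {G : σ → Polynomial (J.ZP τ)}
    {g : Polynomial (J.ZP τ)} {T : MvPolynomial σ ℂ} {Ψ : (τ → ℂ) → τ → ℂ}
    {y : (τ → ℂ) × (τ → ℂ) → σ → ℂ} {a : τ → ℂ} (h : Cel Λ G g T Ψ y)
    (hG : ∀ l, 0 < (G l).natDegree ∧ SzP Λ (G l)) (ha : ‖a‖ ≤ 1)
    (hn : ¬ ∀ᶠ t in 𝓝 (Ψ a), y (sc Λ Ψ a t) = y (a, 0)) :
    Hyp {t | ∃ b, ‖b‖ ≤ 1 ∧ Ψ b = t ∧ y (b, 0) = y (a, 0)} Λ := by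
  have m := loc_mem ha (by norm_num : (1 : ℝ) < 40)
  have ev : ∀ l t, MvPolynomial.eval t (evP MvPolynomial.X (MvPolynomial.C (y (a, 0) l)) (G l)) =
      evP t (y (a, 0) l) (G l) := fun l t => by
    rw [map_evP]
    simp only [MvPolynomial.eval_X, MvPolynomial.eval_C]
  obtain ⟨l, hl⟩ : ∃ l, evP MvPolynomial.X (MvPolynomial.C (y (a, 0) l)) (G l) ≠
      (0 : MvPolynomial τ ℂ) := by
    by_contra hc
    push Not at hc
    have ts := (sc_ana (Λ := Λ) (Ψ := Ψ) (a := a) (Ψ a)).continuousAt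
    have c : ContinuousAt (fun t => y (sc Λ Ψ a t)) (Ψ a) :=
      (h.ay _ (by rwa [sc_self])).continuousAt.comp ts
    refine hn ?_
    simp only [funext_iff]
    refine eventually_all.2 fun l => loc_root (G := G l) (θ := fun t => t) continuousAt_id
      (continuousAt_pi.1 c l) continuousAt_const ((ts.eventually (isOpen_ball.mem_nhds
        (by rwa [sc_self]))).mono fun t ht => by simpa only [th_sc] using h.rt _ ht l)
      (.of_forall fun t => by rw [← ev, hc, map_zero]) (by rw [sc_self]) ?_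
    rw [sc_self, ← loc_th0 (Λ := Λ) (Ψ := Ψ) (a := a)]
    refine dsc_ne (hG l).1 (h.rt _ m l) fun c => h.ne _ m ?_
    rw [den, map_mul, map_prod, Finset.prod_eq_zero (Finset.mem_univ l) c, zero_mul]
  refine ⟨_, hl, ?_, ?_⟩
  · rw [evP, Polynomial.coe_eval₂RingHom, Polynomial.eval₂_eq_sum_range]
    refine MvPolynomial.totalDegree_finsetSum_le fun i _ => ?_
    rw [← map_pow, mul_comm, MvPolynomial.C_mul']
    refine (MvPolynomial.totalDegree_smul_le _ _).trans (le_trans ?_ ((hG l).2.2 i).1)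
    rw [show evZ MvPolynomial.X ((G l).coeff i) = MvPolynomial.map (Int.castRingHom ℂ)
      ((G l).coeff i) from DFunLike.congr_fun (MvPolynomial.ringHom_ext (by simp [evZ])
        (by simp [evZ])) _]
    exact Finset.sup_mono (MvPolynomial.support_map_subset _ _)
  · rintro _ ⟨b, hb, rfl, e⟩
    rw [ev, ← e, ← loc_th0 (Λ := Λ) (Ψ := Ψ) (a := b)]
    exact h.rt _ (loc_mem hb (by norm_num)) l

/-- a branch at `y` is alone and fails the degree property -/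
def BadK (T : MvPolynomial σ K) (B : σ → Matrix (Fin n) (Fin n) (MvPolynomial σ K))
    (U : Set (σ → ℂ)) (P : (σ → ℂ) → Matrix (Fin n) (Fin n) ℂ) (C1 C0 : Matrix (Fin n) (Fin n) ℂ)
    (S : Set ((σ → ℂ) × Matrix (Fin n) (Fin n) ℂ)) (δ : ℕ) (E : IntermediateField K ℂ)
    (y : σ → E) : Prop :=
  ∃ U' P', ContM U P U' P' ∧ FundM T B U' P' ∧ pc y ∈ U' ∧
    ((pc y, P' (pc y) * C1) ∈ S ∧ Lone T U P C1 C0 S P' (pc y)) ∧
    ∃ z : Matrix (Fin n) (Fin n) E, z.map (algebraMap E ℂ) = P' (pc y) * C1 ∧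
      ¬ GoodRM U' P' C1 C0 δ y z

/-- For each `a` let `Y a` be the continuation over the ball of the bad branch at `y (a, 0)`.
Classes by the values at the centre of the ball; in a class `Y a = Y c * g`. -/
theorem cellK (T0 : T ≠ 0) (h : GalM T B) (τ : Type) [Fintype τ] : ∃ c : ℕ,
    ∀ (δ r : ℕ) (U : Set (σ → ℂ)) (P : (σ → ℂ) → Matrix (Fin n) (Fin n) ℂ)
      (C1 C0 : Matrix (Fin n) (Fin n) ℂ) (S : Set ((σ → ℂ) × Matrix (Fin n) (Fin n) ℂ)),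
      IsOpen U → IsPreconnected U →
      FundM T B U P →
      ConnRM U P (fun t => P t * C1) → Proj T U P C1 C0 → FinMon K U P C1 C0 r →
      CellP T (BadK T B U P C1 C0 S δ) τ (r + δ + 1) (c * (δ + 1) ^ n ^ 2) := by
  classical
  obtain ⟨c, hg⟩ := gapK h τ
  refine ⟨c + 1 + 1, fun δ r U P C1 C0 S₀ ho hU hP hC hj hM Λ L2 rL T1 G g Ψ y hG g0 cel A hA => ?_⟩
  replace hg := hg δ Λ L2 (by omega)
  rw [Fintype.card_prod, Fintype.card_fin, ← sq] at hg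
  by_cases hc : ∃ a ∈ A, ∀ᶠ t in 𝓝 (Ψ a), y (sc Λ Ψ a t) = y (a, 0)
  · obtain ⟨a, ha, e⟩ := hc
    have k := fun b hb => cel.const (fun l => (hG l).2.1) (hA a ha).1 e (hA b hb).1
    exact .inl fun b hb b' hb' => (k b hb).trans (k b' hb').symm
  right
  have an : ∀ {V Q}, FundM T B V Q → ∀ t ∈ V, ∀ i j, AnalyticAt ℂ (Q · i j) t :=
    fun h t ht i j => ((h t ht).2 i j).1
  have nT : ∀ p ∈ ball (0 : (τ → ℂ) × (τ → ℂ)) 40, MvPolynomial.aeval (y p) T ≠ 0 := fun p hp e =>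
    cel.tn p hp (by rw [MvPolynomial.eval_map, ← MvPolynomial.aeval_def, map_mul, e, mul_zero])
  have n1 : ∀ a ∈ A, ‖(a, (0 : τ → ℂ))‖ ≤ 1 := fun a ha => by simpa using (hA a ha).1
  have n2 : ∀ a ∈ A, (a, (0 : τ → ℂ)) ∈ ball (0 : (τ → ℂ) × (τ → ℂ)) 36 := fun a ha =>
    mem_ball_zero_iff.2 ((n1 a ha).trans_lt (by norm_num))
  have n3 : (0 : (τ → ℂ) × (τ → ℂ)) ∈ ball (0 : (τ → ℂ) × (τ → ℂ)) 36 := mem_ball_self (by norm_num)
  have n4 := ball_subset_ball (x := (0 : (τ → ℂ) × (τ → ℂ))) (show (36 : ℝ) ≤ 40 by norm_num)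
  have key : ∀ a ∈ A, ∃ V Q, ContM U P V Q ∧ FundM T B V Q ∧ y (a, 0) ∈ V ∧
      ((y (a, 0), Q (y (a, 0)) * C1) ∈ S₀ ∧ Lone T U P C1 C0 S₀ Q (y (a, 0))) ∧
      PtA (fun (E : IntermediateField K ℂ) x => ∃ z : Matrix _ _ E,
        z.map (algebraMap E ℂ) = Q (pc x) * C1 ∧ ¬ GoodRM V Q C1 C0 δ x z) Λ (y (a, 0)) (Ψ a) := by
    intro a ha
    obtain ⟨E, _, x, u, e1, e2, e3, e4, e5, V, Q, b1, b2, b3, b4, b5⟩ := (hA a ha).2
    exact ⟨V, Q, b1, b2, e1 ▸ b3, e1 ▸ b4, E, inferInstance, x, u, e1, e2, e3, e4, e5, b5⟩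
  choose! V Q hV hQ mV hF hb using key
  have dom := fun a ha => cont_dom ho hU (fun i j t ht => an hP t ht i j) (hV a ha)
  choose! Y aY eY cY using fun a ha => contB (loc_fund (dom a ha).1 ⟨_, mV a ha⟩ (hQ a ha) T0)
    (dom a ha).1 (hQ a ha) cel.ay nT (n1 a ha) (mV a ha)
  choose! U' Q' o' c' f' m' k' e' using cY
  have dY : ∀ a ∈ A, (Y a 0).det ≠ 0 := fun a ha =>
    (e' a ha 0 n3).self_of_nhds ▸ (f' a ha 0 n3 _ (m' a ha 0 n3)).1
  have gY : ∀ a ∈ A, ∀ b ∈ A, ∀ p ∈ ball (0 : (τ → ℂ) × (τ → ℂ)) 36,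
      Y b p = Y a p * ((Y a 0)⁻¹ * Y b 0) := fun a ha b hb p hp => by
    ext i j
    refine AnalyticOnNhd.eqOn_of_preconnected_of_eventuallyEq (𝕜 := ℂ) (f := (Y b · i j))
      (g := fun p => (Y a p * ((Y a 0)⁻¹ * Y b 0)) i j) (aY b hb i j) (fun p hp => ?_)
      (convex_ball _ _).isPreconnected n3 ?_ hp
    · generalize (Y a 0)⁻¹ * Y b 0 = M
      simp only [mul_apply]
      exact Finset.analyticAt_fun_sum _ fun k _ => (aY a ha i k p hp).fun_mul analyticAt_const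
    filter_upwards [e' a ha 0 n3, e' b hb 0 n3, (cel.ay 0 (n4 n3)).continuousAt.tendsto.eventually
      (fund_uniq (o' b hb 0 n3) (o' a ha 0 n3) (f' b hb 0 n3) (f' a ha 0 n3) (m' b hb 0 n3)
        (m' a ha 0 n3) (nT 0 (n4 n3)))] with p p1 p2 p3
    rw [p1, p2, p3, (e' a ha 0 n3).self_of_nhds, (e' b hb 0 n3).self_of_nhds]
  obtain ⟨I, i1, i2, i3⟩ := cls_rep (S := A) (m := r) (r := fun a b => Y b 0 * C1 = Y a 0 * C1 ∧
    ∃ γ : Matrix (Fin n) (Fin n) K, γ.det ≠ 0 ∧ Y b 0 * C0 = Y a 0 * C0 * γ.map (algebraMap K ℂ))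
    (fun a => ⟨rfl, 1, by simp, by simp⟩) (fun a b ⟨h1, γ, h2, h3⟩ => ⟨h1.symm, γ⁻¹, by
      rw [det_nonsing_inv, Ring.inverse_eq_inv]
      exact inv_ne_zero h2, by
      rw [h3, Matrix.mul_assoc _ _ (γ⁻¹.map _), ← Matrix.map_mul, mul_nonsing_inv _ h2.isUnit]
      simp⟩) fun f hf => by
    obtain ⟨i, j, e, γ, h2, h3⟩ := hM (y 0) (fun i => U' (f i) 0) (fun i => Q' (f i) 0)
      fun i => ⟨mainA_trans (hV _ (hf i)) (k' _ (hf i) 0 n3), m' _ (hf i) 0 n3⟩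
    refine ⟨i, j, e, ?_⟩
    rw [(e' _ (hf i) 0 n3).self_of_nhds, (e' _ (hf j) 0 n3).self_of_nhds]
    exact ⟨h3.self_of_nhds.1, γ, h2, h3.self_of_nhds.2⟩
  refine (Hyp.cover (n := Λ ^ ((c + 1) * (δ + 1) ^ n ^ 2)) (Cs := I.image fun a => (A.filter fun b =>
    Y b 0 * C1 = Y a 0 * C1 ∧ ∃ γ : Matrix (Fin n) (Fin n) K, γ.det ≠ 0 ∧
      Y b 0 * C0 = Y a 0 * C0 * γ.map (algebraMap K ℂ)).image Ψ) (fun S hS => ?_) ?_).mono
    subset_rfl (by
      rw [add_one_mul (c + 1), pow_add, mul_comm (Λ ^ _)]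
      exact Nat.mul_le_mul_right _ (Finset.card_image_le.trans (i2.trans
        (le_trans (by omega) (Nat.le_self_pow (by positivity) Λ)))))
  swap
  · rintro _ ⟨b, hb, rfl⟩
    obtain ⟨a, a1, a2⟩ := i3 b hb
    exact ⟨_, Finset.mem_image_of_mem _ a1,
      Finset.mem_image_of_mem _ (Finset.mem_filter.2 ⟨hb, a2⟩)⟩
  obtain ⟨a, ha, rfl⟩ := Finset.mem_image.1 hS
  replace ha := i1 ha
  by_cases hv : ∀ v : τ → ℂ, ¬ FullA (Q a) C1 C0 (y (a, 0)) fun u => y (sc Λ Ψ a (Ψ a + u • v))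
  · have m40 := n4 (n2 a ha)
    have ts : Tendsto (sc Λ Ψ a) (𝓝 (Ψ a)) (𝓝 (a, 0)) := by
      have := (sc_ana (Λ := Λ) (Ψ := Ψ) (a := a) (Ψ a)).continuousAt.tendsto
      rwa [sc_self] at this
    refine (cel_hyp cel (fun l => (hG l).2) (hA a ha).1 fun e => hc ⟨a, ha, e⟩).mono
      (fun t ht => ?_) (Nat.le_self_pow (by positivity) Λ)
    obtain ⟨b, h1, rfl⟩ := Finset.mem_image.1 (Finset.mem_coe.1 ht)
    obtain ⟨h1, h2, -⟩ := Finset.mem_filter.1 h1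
    refine ⟨b, (hA b h1).1, rfl, cel_lone cel (fun l => (hG l).2.1) (hA a ha).1 (hA b h1).1 nT
      (eY a ha)
      (fun p hp => ⟨_, _, mainA_trans (hV a ha) (k' a ha p hp), m' a ha p hp, e' a ha p hp⟩)
      (hF a ha).2 (line_arc (η := fun t => y (sc Λ Ψ a t))
        ((cel.ay _ (by rwa [sc_self])).comp (sc_ana _)) (by simp only [sc_self])
        (fun l => (hG l).1) fun l => (ts.eventually (isOpen_ball.mem_nhds m40)).mono
          fun t ht => by simpa only [th_sc] using cel.rt _ ht l) hv ?_⟩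
    have := (hF b h1).1
    rwa [← (eY b h1).self_of_nhds, gY a ha b h1 _ (n2 b h1), Matrix.mul_assoc, Matrix.mul_assoc, h2,
      nonsing_inv_mul_cancel_left _ _ (dY a ha).isUnit] at this
  push Not at hv
  refine (hg T1 G g Ψ y hG g0 cel a (V a) (Q a) C1 C0 (Y a) (hA a ha).1 (dom a ha).1
    (dom a ha).2.1 (hQ a ha) (mV a ha) (ConnRM.cont ho hU (an hP) C1 hC (hV a ha))
    (proj_cont ho hj (hV a ha)) hv ?_ (aY a ha) (eY a ha) _ fun t ht => ?_).mono subset_rfl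
    (Nat.pow_le_pow_right (by omega) (Nat.mul_le_mul_right _ c.le_succ))
  · obtain ⟨E, _, x, u, e1, e2, e3, e4, e5, -⟩ := hb a ha
    exact ⟨E, inferInstance, x, u, e1, e2, e3, e4, e5, trivial⟩
  obtain ⟨b, h1, rfl⟩ := Finset.mem_image.1 ht
  obtain ⟨h1, h2, γ, h3, h4⟩ := Finset.mem_filter.1 h1
  have h5 := n2 b h1
  refine ⟨b, U' a (b, 0), Q' a (b, 0), (hA b h1).1, rfl, o' a ha _ h5, c' a ha _ h5, f' a ha _ h5,
    m' a ha _ h5, k' a ha _ h5, e' a ha _ h5, ?_⟩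
  obtain ⟨E, _, x, u, e1, e2, e3, e4, e5, z, e6, e7⟩ := hb b h1
  have g1 := fund_uniq (dom b h1).1 (o' a ha _ h5) (hQ b h1) (f' a ha _ h5) (mV b h1)
    (m' a ha _ h5) (nT _ (n4 h5))
  rw [← (eY b h1).self_of_nhds, gY a ha b h1 _ h5, (e' a ha _ h5).self_of_nhds,
    nonsing_inv_mul_cancel_left _ _ (f' a ha _ h5 _ (m' a ha _ h5)).1.isUnit, ← e1] at g1
  replace g1 : ∀ᶠ w in 𝓝 (pc x), Q b w * C1 = Q' a (b, 0) w * C1 ∧
      Q b w * C0 = Q' a (b, 0) w * C0 * γ.map (algebraMap K ℂ) := g1.mono fun w hw => by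
    simp only [hw, Matrix.mul_assoc, h2, h4, nonsing_inv_mul_cancel_left _ _ (dY a ha).isUnit,
      and_self]
  refine ⟨E, inferInstance, x, u, e1, e2, e3, e4, e5, z, e6.trans g1.self_of_nhds.1, fun k => e7 ?_⟩
  exact good_mulR (o' a ha _ h5) (dom b h1).1 (dom b h1).2.1 (an (hQ b h1))
    (e1.symm ▸ m' a ha _ h5) (e1.symm ▸ mV b h1) (γ := γ.map (algebraMap K E)) (by
      rw [← RingHom.mapMatrix_apply, ← RingHom.map_det]
      exact (_root_.map_ne_zero _).2 h3) g1 k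

end

end Pool.Agent.Lib.MP_5591bc_ag.K
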