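import Pool.Agent.Lib.MP_5591bc_ag.M.Defs

/-! Continuation along a path. -/

namespace Pool.Agent.Lib.MP_5591bc_ag.K

open MvPolynomial Filter Topology Set M

/-- `c` is a path off `T = 0`, and `Y` is the value along `c` of one analytic continuation of `P`
along `c`. -/
def Pth {K σ ν : Type*} [Field K] [Algebra K ℂ] [Fintype σ] (T : MvPolynomial σ K)
    (U : Set (σ → ℂ)) (P : (σ → ℂ) → Matrix ν ν ℂ) (c : ℝ → σ → ℂ) (Y : ℝ → Matrix ν ν ℂ) : Prop :=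
  ContinuousOn c (Icc 0 1) ∧ ∀ τ ∈ Icc (0 : ℝ) 1, aeval (c τ) T ≠ 0 ∧
    ∃ V Q, ContM U P V Q ∧ c τ ∈ V ∧ ∀ᶠ τ' in 𝓝[Icc 0 1] τ, Y τ' = Q (c τ')

end Pool.Agent.Lib.MP_5591bc_ag.K
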