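import Pool.Agent.Lib.MP_5591bc_ag.K.Set
import Pool.Agent.Lib.MP_5591bc_ag.K.DefW
import Pool.Agent.Lib.MP_5591bc_ag.K.An
import Pool.Agent.Lib.MP_5591bc_ag.K.Baire
import Pool.Agent.Lib.MP_5591bc_ag.B.End
import Pool.Agent.Lib.MP_5591bc_ag.J.Fin

/-! The countably many conditions given by the normal subgroups. -/

namespace Pool.Agent.Lib.MP_5591bc_ag.K

open Matrix Filter Topology Set G R W M A N E Z J B

theorem lone_of {σ K ν μ : Type} [Fintype σ] [DecidableEq σ] [Field K] [Algebra K ℂ] [Fintype ν]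
    [DecidableEq ν] [Fintype μ] [DecidableEq μ] {T : MvPolynomial σ K}
    {B : σ → Matrix ν ν (MvPolynomial σ K)} {U V : Set (σ → ℂ)} {S : Set ((σ → ℂ) × Matrix ν ν ℂ)}
    {P Q : (σ → ℂ) → Matrix ν ν ℂ} {C1 : Matrix ν ν ℂ} {c : μ → ν} {J : Matrix μ μ ℝ} {j r : ℕ}
    {w : μ → ℕ} (T0 : T ≠ 0) (ho : IsOpen U) (hU : IsPreconnected U) (hP : FundM T B U P)
    (hC : ConnRM U P fun t => P t * C1) (hc : Function.Injective c) (hj : Proj T U P C1 (pr c))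
    (h : VHS T U P C1 c J j w r) (k : ContM U P V Q) {x : σ → ℂ} (hx : x ∈ V)
    (hT : MvPolynomial.aeval x T ≠ 0) (hM : Mf Q C1 c x ⊆ MTH j w ((Q x).submatrix c c))
    (hS : ∀ s ∈ S, WS T U P C1 c j w Q x s → s.1 = x) : Lone T U P C1 (pr c) S Q x := by
  obtain ⟨V', v1, v2, v3, -, v5⟩ := cont_fund T0 ho hU hP k hx hT
  have k' : ContM U P V' Q := .step _ _ _ _ _ k v1 v2 (fun i j t ht => ((v5 t ht).2 i j).1) hx v3
    (.of_forall fun _ => rfl)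
  let φ : ℂ → Matrix ν ν ℂ → Matrix μ μ ℂ := fun z Y =>
    (cx (hH J j w z ((Q x).submatrix c c)))⁻¹ * cx (hH J j w z (Y.submatrix c c))
  let ρ : Set (Matrix μ μ ℂ) → Set (Matrix ν ν ℂ → ℂ) := fun N => {f | ∃ z ≠ 0,
    ∃ p : MvPolynomial (μ × μ) ℚ, (∀ g ∈ N, MvPolynomial.aeval (fun a => g a.1 a.2) p = 0) ∧
      f = fun Y => MvPolynomial.aeval (fun a => φ z Y a.1 a.2) p}
  have dc : ∀ {Y}, HS J j w Y → ∀ z ≠ 0, (cx (hH J j w z Y)).det ≠ 0 := fun {Y} hs z z0 =>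
    (Complex.ofRealHom.map_det _).symm.trans_ne (by
      simpa using det_ne_zero_of_right_inverse (B := hH J j w z⁻¹ Y) (by
        rw [hH_mul hs, mul_inv_cancel₀ z0, hH_one hs]))
  refine ⟨ρ '' {N | QGrp N ∧ N ⊂ Mf Q C1 c x ∧ ∀ g ∈ Mf Q C1 c x, ∀ a ∈ N, g⁻¹ * a * g ∈ N},
    (baire_count.mono fun N hN => hN.1).image _, ?_, ?_, ?_⟩
  · rintro _ ⟨N, -, rfl⟩ _ ⟨z, -, p, -, rfl⟩ V₁ Q₁ k₁ t ht Tt
    exact ((AnE.const _).mul (an_hH (Y := fun s => (Q₁ s).submatrix c c) (fun a b =>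
      ((cont_dom ho hU (fun i j t ht => ((hP t ht).2 i j).1) k₁).2.2 _ _ t ht).restrictScalars)
      (h.2.1 _ _ k₁ t ht Tt).1 z)).aeval p
  · rintro y ⟨hy, rfl, hq⟩
    obtain ⟨N, n1, n2, n3, n4, n5⟩ := arc_dich ho hU hP hC hc hj h k' v1 v2 v5 hy v3 hT hq hM
    by_cases hN : Mf Q C1 c (y 0) ⊆ N
    · exact .inl (n5 hN)
    refine .inr ⟨_, ⟨N, ⟨n1, ⟨n2, hN⟩, n3⟩, rfl⟩, ?_⟩
    rintro _ ⟨z, z0, p, hp, rfl⟩
    exact n4.mono fun u hu => hp _ (hu z z0)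
  · rintro _ ⟨N, ⟨n1, n2, n3⟩, rfl⟩ γ Y hp g0 y0 hz m
    refine hS _ m ⟨N, n1, n2, n3, γ, Y, hp, g0, y0, rfl, fun τ hτ z g g' z0 e1 e2 => ?_⟩
    obtain ⟨t1, V₁, Q₁, k₁, m₁, e⟩ := hp.2 τ hτ
    have s1 := (h.2.1 _ _ k₁ _ m₁ t1).1
    have s0 := (h.2.1 _ _ k _ hx hT).1
    rw [← e.self_of_nhdsWithin hτ] at s1
    rw [y0] at e1
    rw [(isH_iff s0).1 e1, (isH_iff s1).1 e2]
    obtain ⟨E, hE⟩ := n1.1
    refine hE.ge ⟨?_, fun p q => hz τ hτ _ ⟨z, z0, p, fun g hg => (hE.le hg).2 p q, rfl⟩⟩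
    rw [det_mul, det_nonsing_inv, Ring.inverse_eq_inv]
    exact mul_ne_zero (inv_ne_zero (dc s0 z z0)) (dc s1 z z0)

end Pool.Agent.Lib.MP_5591bc_ag.K
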